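import Mathlib
import Pool.Agent.Helper11.PW.Pow
import Pool.Agent.Helper47.Spread.Main

/-!
# Powers of the zero locus of a generic section

If `X` is the zero locus of the generic section `∑ a_l s_l` in `M₀ ×_F K`, the power `X^T` is the
zero locus of the generic section `∑ a_l (pr_t^* s_l)_t` in `M₀^T ×_F K`.
-/

universe u v w

open CategoryTheory AlgebraicGeometry Limits

namespace Pool.Agent.Helper47.PWB

open Pool.Agent.Helper10 Pool.Agent.Helper10.SmProjVar Pool.Agent.Helper47.Chow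
open Pool.Agent.Helper47.Desc Pool.Agent.Helper47.Spread Pool.Agent.Helper47.Spread.C5
open Pool.Agent.Helper11.PW

noncomputable section

variable {F K : Type u} [Field F] [Field K] [Algebra F K] {M₀ : SmProjVar F} {r R : ℕ} {I : Type}
  {T : Type}

/-- An affine open subset of `M₀^T` whose image under the `t`-th projection lies in a member of
the cover, for all `t`. -/
structure PIdx (S : Sections M₀ r I) (B : Pow M₀ T) : Type u where
  i : T → S.ι
  V : B.var.toOver.left.Opens
  affine : IsAffineOpen V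
  le : ∀ t, V ≤ (B.pr t).left ⁻¹ᵁ S.U (i t)

/-- The coordinates of the sections at the components of a point of `M₀^T`. -/
def coordT (S : Sections M₀ r I) (B : Pow M₀ T) (i : T → S.ι) (V : B.var.toOver.left.Opens)
    (hV : ∀ t, V ≤ (B.pr t).left ⁻¹ᵁ S.U (i t)) (c : T × Fin r) (l : I) :
    Γ(B.var.toOver.left, V) :=
  ap (B.pr c.1).left (S.U (i c.1)) V (hV c.1) (S.f (i c.1) c.2 l)

lemma res_coordT (S : Sections M₀ r I) (B : Pow M₀ T) (i : T → S.ι)
    {V V' : B.var.toOver.left.Opens} (hV : ∀ t, V ≤ (B.pr t).left ⁻¹ᵁ S.U (i t)) (h : V' ≤ V)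
    (c : T × Fin r) (l : I) :
    res h (coordT S B i V hV c l) = coordT S B i V' (fun t => h.trans (hV t)) c l := by
  unfold coordT
  rw [res_ap]

/-- A neighbourhood of a point of `M₀^T` with given indices. -/
lemma exists_pIdx [Finite T] (S : Sections M₀ r I) (B : Pow M₀ T) (i : T → S.ι)
    (x : B.var.toOver.left) (W : B.var.toOver.left.Opens) (hW : x ∈ W)
    (hx : ∀ t, (B.pr t).left x ∈ S.U (i t)) :
    ∃ p : PIdx S B, p.i = i ∧ x ∈ p.V ∧ p.V ≤ W := by
  let W' : Set B.var.toOver.left :=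
    (W : Set B.var.toOver.left) ∩
      ⋂ t, (((B.pr t).left ⁻¹ᵁ S.U (i t) : B.var.toOver.left.Opens) : Set B.var.toOver.left)
  have hW' : IsOpen W' := W.2.inter (isOpen_iInter_of_finite fun t => (_ : B.var.toOver.left.Opens).2)
  obtain ⟨U, hU, hxU, hUW⟩ := B.var.toOver.left.isBasis_affineOpens.exists_subset_of_mem_open
    (show x ∈ W' from ⟨hW, Set.mem_iInter.mpr fun t => hx t⟩) hW'
  obtain ⟨V, hV, rfl⟩ := hU
  exact ⟨⟨i, V, hV, fun t y hy => Set.mem_iInter.mp (hUW hy).2 t⟩, rfl, hxU,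
    fun y hy => (hUW hy).1⟩

/-- The sections `(pr_t^* s_l)_t` on `M₀^T`. -/
def powSec [Finite T] (S : Sections M₀ r I) (B : Pow M₀ T) (e : Fin R ≃ T × Fin r) :
    Sections B.var R I where
  ι := PIdx S B
  U p := p.V
  affine p := p.affine
  cover x := by
    choose i hi using fun t => S.cover ((B.pr t).left x)
    obtain ⟨p, -, hp, -⟩ := exists_pIdx S B i x ⊤ trivial hi
    exact ⟨p, hp⟩
  f p q l := coordT S B p.i p.V p.le (e q) l
  glue p p' := by
    classical
    choose G hG using fun t => S.glue (p.i t) (p'.i t)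
    have hle : ∀ t, p.V ⊓ p'.V ≤ (B.pr t).left ⁻¹ᵁ (S.U (p.i t) ⊓ S.U (p'.i t)) :=
      fun t x hx => ⟨p.le t hx.1, p'.le t hx.2⟩
    refine ⟨Matrix.of fun q q' => if (e q).1 = (e q').1 then
      ap (B.pr (e q).1).left _ _ (hle (e q).1) (G (e q).1 (e q).2 (e q').2) else 0, fun q l => ?_⟩
    have : Fintype T := Fintype.ofFinite T
    rw [res_coordT, coordT]
    have h1 := congrArg (ap (B.pr (e q).1).left _ _ (hle (e q).1)) (hG (e q).1 (e q).2 l)
    rw [ap_res, map_sum] at h1
    rw [h1, ← Equiv.sum_comp e.symm, Fintype.sum_prod_type, Finset.sum_eq_single (e q).1]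
    · refine Finset.sum_congr rfl fun q' _ => ?_
      rw [Matrix.of_apply, Equiv.apply_symm_apply, if_pos rfl, map_mul, ap_res, res_coordT, coordT]
    · intro t _ ht
      refine Finset.sum_eq_zero fun q' _ => ?_
      rw [Matrix.of_apply, Equiv.apply_symm_apply, if_neg (Ne.symm ht), zero_mul]
    · intro h
      exact absurd (Finset.mem_univ _) h

section ZeroLocus

variable {X : SmProjVar K} {π : X.toOver.left ⟶ M₀.toOver.left}

/-- The morphism `X^T ⟶ M₀^T`. -/
def powMap (B : Pow M₀ T) (A : Pow X T)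
    (w : π ≫ M₀.toOver.hom = X.toOver.hom ≫ specMap F K) :
    A.var.toOver.left ⟶ B.var.toOver.left :=
  (B.lift (Z := Over.mk (A.var.toOver.hom ≫ specMap F K)) fun t =>
    Over.homMk ((A.pr t).left ≫ π) (by
      change ((A.pr t).left ≫ π) ≫ M₀.toOver.hom = A.var.toOver.hom ≫ specMap F K
      rw [Category.assoc, w, ← Category.assoc, Over.w])).left

lemma powMap_hom (B : Pow M₀ T) (A : Pow X T)
    (w : π ≫ M₀.toOver.hom = X.toOver.hom ≫ specMap F K) :
    powMap B A w ≫ B.var.toOver.hom = A.var.toOver.hom ≫ specMap F K :=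
  Over.w (B.lift (Z := Over.mk (A.var.toOver.hom ≫ specMap F K)) _)

lemma powMap_pr (B : Pow M₀ T) (A : Pow X T)
    (w : π ≫ M₀.toOver.hom = X.toOver.hom ≫ specMap F K) (t : T) :
    powMap B A w ≫ (B.pr t).left = (A.pr t).left ≫ π :=
  congrArg CommaMorphism.left (B.lift_pr (Z := Over.mk (A.var.toOver.hom ≫ specMap F K)) _ t)

lemma hom_ext_F (B : Pow M₀ T) {Z : Scheme.{u}} (h h' : Z ⟶ B.var.toOver.left)
    (e : h ≫ B.var.toOver.hom = h' ≫ B.var.toOver.hom)
    (e' : ∀ t, h ≫ (B.pr t).left = h' ≫ (B.pr t).left) : h = h' := B.semi_unique h h' e e'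

variable [Fintype I]

/-- Vanishing of the equations is local. -/
lemma eqn_eq_zero_of_pow [Finite T] {S : Sections M₀ r I} {a : I → K} (B : Pow M₀ T)
    (e : Fin R ≃ T × Fin r) {Z : Scheme.{u}} (p : Z ⟶ B.var.toOver.left)
    (s : Z ⟶ Spec (CommRingCat.of K))
    (h : ∀ i q, eqn (powSec S B e) a p s i q = 0) (t : T) (i : S.ι) (q : Fin r) :
    eqn S a (p ≫ (B.pr t).left) s i q = 0 := by
  classical
  let U : Z.Opens := (p ≫ (B.pr t).left) ⁻¹ᵁ S.U i
  have key : ∀ z : U, ∃ P : PIdx S B, P.i t = i ∧ p z.1 ∈ P.V := by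
    intro z
    choose i' hi' using fun t => S.cover ((B.pr t).left (p z.1))
    obtain ⟨P, hP, hz, -⟩ := exists_pIdx S B (Function.update i' t i) (p z.1) ⊤ trivial (by
      intro t'
      by_cases ht : t' = t
      · subst ht
        rw [Function.update_self]
        exact z.2
      · rw [Function.update_of_ne ht]
        exact hi' t')
    exact ⟨P, by rw [hP, Function.update_self], hz⟩
  choose P hP hPz using key
  have hle : ∀ z : U, p ⁻¹ᵁ (P z).V ≤ U := by
    intro z x hx
    have := (P z).le t hx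
    rw [hP z] at this
    exact this
  refine TopCat.Sheaf.eq_of_locally_eq' Z.sheaf (fun z : U => p ⁻¹ᵁ (P z).V) U
    (fun z => homOfLE (hle z)) ?_ _ _ fun z => ?_
  · intro x hx
    exact TopologicalSpace.Opens.mem_iSup.mpr ⟨⟨x, hx⟩, hPz ⟨x, hx⟩⟩
  · have h1 := h (P z) (e.symm (t, q))
    change res (hle z) (eqn S a (p ≫ (B.pr t).left) s i q) = res (hle z) 0
    refine Eq.trans ?_ (map_zero (res (hle z))).symm
    refine Eq.trans ?_ h1
    unfold eqn
    rw [map_sum]
    refine Finset.sum_congr rfl fun l _ => ?_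
    rw [map_mul, res_const, pb_eq_ap, res_ap]
    congr 1
    change _ = pb p (P z).V (coordT S B (P z).i (P z).V (P z).le (e (e.symm (t, q))) l)
    rw [Equiv.apply_symm_apply, coordT, pb_eq_ap, ap_ap]
    have : ∀ (i' : S.ι) (h' : i' = i) (hV : p ⁻¹ᵁ (P z).V ≤ (p ≫ (B.pr t).left) ⁻¹ᵁ S.U i),
        ap (p ≫ (B.pr t).left) (S.U i) (p ⁻¹ᵁ (P z).V) hV (S.f i q l) =
          ap (p ≫ (B.pr t).left) (S.U i') (p ⁻¹ᵁ (P z).V) (h' ▸ hV) (S.f i' q l) := by
      rintro i' rfl hV
      rfl
    exact this _ (hP z) _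

/-- The power of a zero locus is a zero locus. -/
theorem isZeroLocus_pow [Finite T] {S : Sections M₀ r I} {a : I → K} (hX : IsZeroLocus S a X π)
    (B : Pow M₀ T) (A : Pow X T) (e : Fin R ≃ T × Fin r) :
    IsZeroLocus (powSec S B e) a A.var (powMap B A hX.w) where
  w := powMap_hom B A hX.w
  zero P q := by
    rw [eqn]
    have hle : powMap B A hX.w ⁻¹ᵁ P.V ≤
        ((A.pr (e q).1).left ≫ π) ⁻¹ᵁ S.U (P.i (e q).1) := by
      rw [← powMap_pr B A hX.w]
      exact fun x hx => P.le (e q).1 hx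
    have h1 := eqn_ap (hX.zero (P.i (e q).1) (e q).2) (A.pr (e q).1).left
      (powMap B A hX.w ⁻¹ᵁ P.V) hle
    refine Eq.trans (Finset.sum_congr rfl fun l _ => ?_) h1
    congr 1
    · rw [Over.w]
      rfl
    · change pb (powMap B A hX.w) P.V (coordT S B P.i P.V P.le (e q) l) = _
      rw [coordT, pb_eq_ap, ap_ap]
      exact ap_congr (powMap_pr B A hX.w (e q).1) _ _ _ _
  exists_lift Z p s hps h := by
    have h1 : ∀ t, ∃ g : Z ⟶ X.toOver.left, g ≫ π = p ≫ (B.pr t).left ∧
        g ≫ X.toOver.hom = s := by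
      intro t
      refine hX.exists_lift Z (p ≫ (B.pr t).left) s ?_ fun i q =>
        eqn_eq_zero_of_pow B e p s h t i q
      rw [Category.assoc, Over.w, hps]
    choose g hg hg' using h1
    let l := A.lift (Z := Over.mk s) fun t => Over.homMk (g t) (hg' t)
    have hl : ∀ t, l.left ≫ (A.pr t).left = g t := fun t =>
      congrArg CommaMorphism.left (A.lift_pr (Z := Over.mk s) _ t)
    have hl' : l.left ≫ A.var.toOver.hom = s := Over.w l
    refine ⟨l.left, hom_ext_F B _ _ ?_ fun t => ?_, hl'⟩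
    · rw [Category.assoc, powMap_hom, ← Category.assoc, hl', hps]
    · rw [Category.assoc, powMap_pr, ← Category.assoc, hl, hg]
  unique Z h h' h1 h2 := by
    refine A.semi_unique h h' h2 fun t => ?_
    refine hX.unique Z _ _ ?_ ?_
    · rw [Category.assoc, Category.assoc, ← powMap_pr B A hX.w, ← Category.assoc,
        ← Category.assoc, h1]
    · rw [Category.assoc, Category.assoc, Over.w, h2]

end ZeroLocus

end

end Pool.Agent.Helper47.PWB
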