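import Mathlib
import Pool.Agent.Helper47.PWB.Pow

/-!
# The strata of a power
-/

universe u v w

open CategoryTheory AlgebraicGeometry Limits

namespace Pool.Agent.Helper47.PWB

open Pool.Agent.Helper10 Pool.Agent.Helper10.SmProjVar Pool.Agent.Helper47.Chow
open Pool.Agent.Helper47.Desc Pool.Agent.Helper47.Spread Pool.Agent.Helper47.Spread.C5
open Pool.Agent.Helper11.PW

noncomputable section

section Exists

variable {k : Type u} [Field k]

theorem exists_pow_fin (X : SmProjVar k) (n : ℕ) : Nonempty (Pow X (Fin (n + 1))) := by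
  induction n with
  | zero => exact ⟨(Pow.single X).relabel (Equiv.ofUnique (Fin 1) Unit)⟩
  | succ n ih =>
    obtain ⟨A⟩ := ih
    exact ⟨(A.prod (Pow.single X)).relabel
      (finSuccEquivLast.trans (Equiv.optionEquivSumPUnit (Fin (n + 1))))⟩

/-- Powers exist. -/
theorem exists_pow (X : SmProjVar k) (T : Type) [Finite T] [Nonempty T] : Nonempty (Pow X T) := by
  have : Fintype T := Fintype.ofFinite T
  obtain ⟨n, hn⟩ : ∃ n, Fintype.card T = n + 1 :=
    Nat.exists_eq_succ_of_ne_zero Fintype.card_ne_zero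
  obtain ⟨A⟩ := exists_pow_fin X n
  exact ⟨A.relabel (Fintype.equivFinOfCardEq hn)⟩

/-- A chosen power. -/
def thePow (X : SmProjVar k) (T : Type) [Finite T] [Nonempty T] : Pow X T :=
  Classical.choice (exists_pow X T)

end Exists

section Strata

variable {k : Type u} [Field k] {X : SmProjVar k} {T N : Type}

/-- No two components of the point `x` of `X^T` are equal. -/
def IsSep (B : Pow X T) (x : B.var.toOver.left) : Prop :=
  ∀ s t, s ≠ t → (lift (B.pr s) (B.pr t)).left x ∉ Set.range (diag X).left

lemma map_left_pr {A : Pow X T} {B : Pow X N} (f : N → T) (s : N) :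
    (A.map B f).left ≫ (B.pr s).left = (A.pr (f s)).left :=
  congrArg CommaMorphism.left (A.map_pr B f s)

/-- A morphism to `X^N` whose components only depend on their image in `T` factors through
`X^T`. -/
lemma exists_factor (A : Pow X T) (B : Pow X N) (f : N → T) (g : T → N) (hg : ∀ t, f (g t) = t)
    {Z : Scheme.{u}} (a : Z ⟶ B.var.toOver.left)
    (ha : ∀ s t, f s = f t → a ≫ (B.pr s).left = a ≫ (B.pr t).left) :
    ∃ l : Z ⟶ A.var.toOver.left, l ≫ (A.map B f).left = a ∧
      l ≫ A.var.toOver.hom = a ≫ B.var.toOver.hom := by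
  let Z' : Over (Spec (CommRingCat.of k)) := Over.mk (a ≫ B.var.toOver.hom)
  let l : Z' ⟶ A.var.toOver := A.lift fun t => Over.homMk (a ≫ (B.pr (g t)).left) (by
    rw [Category.assoc, Over.w]
    rfl)
  have hl : ∀ t, l.left ≫ (A.pr t).left = a ≫ (B.pr (g t)).left := fun t =>
    congrArg CommaMorphism.left (A.lift_pr (Z := Z') _ t)
  have hl' : l.left ≫ A.var.toOver.hom = a ≫ B.var.toOver.hom := Over.w l
  refine ⟨l.left, B.semi_unique _ _ ?_ fun s => ?_, hl'⟩
  · rw [Category.assoc, Over.w, hl']
  · rw [Category.assoc, map_left_pr, hl]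
    exact ha _ _ (hg _)

/-- The two components are equal: the point comes from a smaller power. -/
lemma exists_merge [Finite N] [DecidableEq N] (B : Pow X N) (x : B.var.toOver.left) (s t : N)
    (hst : s ≠ t) (hx : (lift (B.pr s) (B.pr t)).left x ∈ Set.range (diag X).left) :
    ∃ (B' : Pow X {i : N // i ≠ t}) (f : N → {i : N // i ≠ t}) (x' : B'.var.toOver.left),
      Function.Surjective f ∧ (B'.map B f).left x' = x := by
  have : Nonempty {i : N // i ≠ t} := ⟨⟨s, hst⟩⟩
  obtain ⟨B'⟩ := exists_pow X {i : N // i ≠ t}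
  let f : N → {i : N // i ≠ t} := fun i => if h : i = t then ⟨s, hst⟩ else ⟨i, h⟩
  have hf : ∀ i : {i : N // i ≠ t}, f i.1 = i := by
    rintro ⟨i, hi⟩
    exact dif_neg hi
  obtain ⟨y, hy⟩ := hx
  obtain ⟨p, hp, -⟩ := Scheme.Pullback.exists_preimage_pullback
    (f := (lift (B.pr s) (B.pr t)).left) (g := (diag X).left) x y hy.symm
  let P := pullback (lift (B.pr s) (B.pr t)).left (diag X).left
  let a : P ⟶ B.var.toOver.left := pullback.fst _ _
  let b : P ⟶ X.toOver.left := pullback.snd _ _
  have hab : a ≫ (lift (B.pr s) (B.pr t)).left = b ≫ (diag X).left := pullback.condition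
  have hd1 : (diag X).left ≫ (fst X X).left = 𝟙 _ :=
    congrArg CommaMorphism.left (lift_fst (𝟙 X.toOver) (𝟙 X.toOver))
  have hd2 : (diag X).left ≫ (snd X X).left = 𝟙 _ :=
    congrArg CommaMorphism.left (lift_snd (𝟙 X.toOver) (𝟙 X.toOver))
  have h1 : a ≫ (B.pr s).left = b := by
    have e1 : (lift (B.pr s) (B.pr t)).left ≫ (fst X X).left = (B.pr s).left :=
      congrArg CommaMorphism.left (lift_fst (B.pr s) (B.pr t))
    rw [← e1, ← Category.assoc, hab, Category.assoc, hd1, Category.comp_id]
  have h2 : a ≫ (B.pr t).left = b := by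
    have e1 : (lift (B.pr s) (B.pr t)).left ≫ (snd X X).left = (B.pr t).left :=
      congrArg CommaMorphism.left (lift_snd (B.pr s) (B.pr t))
    rw [← e1, ← Category.assoc, hab, Category.assoc, hd2, Category.comp_id]
  obtain ⟨l, hl, -⟩ := exists_factor B' B f (fun i => i.1) hf a (by
    have key : ∀ i, a ≫ (B.pr i).left = a ≫ (B.pr (f i).1).left := by
      intro i
      by_cases hi : i = t
      · subst hi
        have : (f i).1 = s := by
          change (if h : i = i then (⟨s, hst⟩ : {j : N // j ≠ i}) else ⟨i, h⟩).1 = s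
          rw [dif_pos rfl]
        rw [this, h1, h2]
      · have : (f i).1 = i := by
          change (if h : i = t then (⟨s, hst⟩ : {j : N // j ≠ t}) else ⟨i, h⟩).1 = i
          rw [dif_neg hi]
        rw [this]
    intro i j hij
    rw [key i, key j, hij])
  refine ⟨B', f, l p, fun i => ⟨i.1, hf i⟩, ?_⟩
  rw [← Scheme.Hom.comp_apply, hl]
  exact hp

/-- **Strata.** Every point of a power comes from a point with distinct components. -/
theorem exists_strata : ∀ (n : ℕ) (N : Type) [Finite N] [Nonempty N], Nat.card N = n →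
    ∀ (B : Pow X N) (x : B.var.toOver.left), ∃ (T : Type) (_ : Finite T) (_ : Nonempty T)
      (A : Pow X T) (f : N → T) (x' : A.var.toOver.left), Function.Surjective f ∧
        (A.map B f).left x' = x ∧ IsSep A x' := by
  classical
  intro n
  induction n using Nat.strong_induction_on with
  | _ n ih =>
  intro N _ _ hn B x
  by_cases hx : IsSep B x
  · refine ⟨N, inferInstance, inferInstance, B, id, x, Function.surjective_id, ?_, hx⟩
    rw [Pow.map_id]
    rfl
  · unfold IsSep at hx
    push Not at hx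
    obtain ⟨s, t, hst, hx⟩ := hx
    obtain ⟨B', f, x1, hf, h1⟩ := exists_merge B x s t hst hx
    have : Nonempty {i : N // i ≠ t} := ⟨⟨s, hst⟩⟩
    have : Fintype N := Fintype.ofFinite N
    have hlt : Nat.card {i : N // i ≠ t} < n := by
      rw [← hn, Nat.card_eq_fintype_card, Nat.card_eq_fintype_card]
      exact Fintype.card_subtype_lt (x := t) (by simp)
    obtain ⟨T, hT, hT', A, f', x', hf', h2, h3⟩ := ih _ hlt {i : N // i ≠ t} rfl B' x1
    refine ⟨T, hT, hT', A, f' ∘ f, x', hf'.comp hf, ?_, h3⟩
    rw [← Pow.map_comp A B' B f' f, Over.comp_left, Scheme.Hom.comp_apply, h2, h1]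

end Strata

end

end Pool.Agent.Helper47.PWB
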