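import Mathlib
import Pool.Agent.Helper47.PWB.Strata

/-!
# Powers: base change, closed immersions, dimensions, semilinear automorphisms
-/

universe u v w

open CategoryTheory AlgebraicGeometry Limits

namespace Pool.Agent.Helper47.PWB

open Pool.Agent.Helper10 Pool.Agent.Helper10.SmProjVar Pool.Agent.Helper47.Chow
open Pool.Agent.Helper47.Desc Pool.Agent.Helper47.Spread Pool.Agent.Helper47.Spread.C5
open Pool.Agent.Helper11.PW

noncomputable section

section BaseChange

variable {F K : Type u} [Field F] [Field K] [Algebra F K] {M₀ : SmProjVar F} {T : Type}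

/-- The power of a base change is a base change. -/
theorem isPullback_pow {M : SmProjVar K} (pM : M.toOver.left ⟶ M₀.toOver.left)
    (hM : IsPullback pM M.toOver.hom M₀.toOver.hom (specMap F K)) (B : Pow M₀ T) (A : Pow M T) :
    IsPullback (powMap B A hM.w) A.var.toOver.hom B.var.toOver.hom (specMap F K) := by
  have key : ∀ s : PullbackCone B.var.toOver.hom (specMap F K),
      ∃ l : s.pt ⟶ A.var.toOver.left, l ≫ A.var.toOver.hom = s.snd ∧
        ∀ t, l ≫ (A.pr t).left ≫ pM = s.fst ≫ (B.pr t).left := by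
    intro s
    let g : ∀ t, s.pt ⟶ M.toOver.left := fun t =>
      hM.lift (s.fst ≫ (B.pr t).left) s.snd (by
        rw [Category.assoc, Over.w]
        exact s.condition)
    have hg : ∀ t, g t ≫ M.toOver.hom = s.snd := fun t => hM.lift_snd _ _ _
    have hg' : ∀ t, g t ≫ pM = s.fst ≫ (B.pr t).left := fun t => hM.lift_fst _ _ _
    let l := A.lift (Z := Over.mk s.snd) fun t => Over.homMk (g t) (hg t)
    have hl : ∀ t, l.left ≫ (A.pr t).left = g t := fun t =>
      congrArg CommaMorphism.left (A.lift_pr (Z := Over.mk s.snd) _ t)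
    refine ⟨l.left, Over.w l, fun t => ?_⟩
    rw [← Category.assoc, hl, hg']
  choose l hl hl' using key
  refine ⟨⟨powMap_hom B A hM.w⟩, ⟨PullbackCone.IsLimit.mk _ l ?_ hl ?_⟩⟩
  · intro s
    refine hom_ext_F B _ _ ?_ fun t => ?_
    · rw [Category.assoc, powMap_hom, ← Category.assoc, hl]
      exact s.condition.symm
    · rw [Category.assoc, powMap_pr, hl']
  · intro s m h1 h2
    refine A.semi_unique _ _ (by rw [h2, hl]) fun t => ?_
    apply hM.hom_ext
    · rw [Category.assoc, Category.assoc, hl', ← powMap_pr B A hM.w, ← Category.assoc, h1]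
    · rw [Category.assoc, Category.assoc, Over.w, h2, hl]

end BaseChange

section ClosedImm

variable {k : Type u} [Field k] {X M : SmProjVar k} {T : Type}

/-- The power of a closed immersion is a closed immersion. -/
theorem isClosedImmersion_mapOver (A : Pow X T) (B : Pow M T) (j : X.toOver ⟶ M.toOver)
    [IsClosedImmersion j.left] : IsClosedImmersion (A.mapOver B j).left := by
  rw [IsClosedImmersion.iff_isProper_and_mono]
  refine ⟨inferInstance, ⟨fun {Z} g h e => ?_⟩⟩
  have hpr : ∀ t, (A.mapOver B j).left ≫ (B.pr t).left = (A.pr t).left ≫ j.left := fun t =>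
    congrArg CommaMorphism.left (A.mapOver_pr B j t)
  refine A.semi_unique _ _ ?_ fun t => ?_
  · rw [← Over.w (A.mapOver B j), ← Category.assoc, e, Category.assoc]
  · rw [← cancel_mono j.left, Category.assoc, Category.assoc, ← hpr, ← Category.assoc, e,
      Category.assoc]

end ClosedImm

section Dim

variable {k : Type u} [Field k] {X : SmProjVar k} {T : Type}

/-- The dimension of a variety is invariant under isomorphisms. -/
lemma dim_eq_of_iso {L : Type v} [Field L] [CharZero L] (W : WeilCohomology.{u, v, w} k L)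
    {X Y : SmProjVar k} (f : X.toOver ⟶ Y.toOver) (g : Y.toOver ⟶ X.toOver) (h : f ≫ g = 𝟙 _)
    (h' : g ≫ f = 𝟙 _) : X.dim = Y.dim := by
  have e1 : ∀ x : X.toOver.left, g.left (f.left x) = x := by
    intro x
    rw [← Scheme.Hom.comp_apply, ← Over.comp_left, h]
    rfl
  have e2 : ∀ y : Y.toOver.left, f.left (g.left y) = y := by
    intro y
    rw [← Scheme.Hom.comp_apply, ← Over.comp_left, h']
    rfl
  have e3 : f.left X.genericPt = Y.genericPt := by
    have h1 : genericPoint Y.toOver.left ⤳ f.left (genericPoint X.toOver.left) :=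
      genericPoint_specializes _
    have h2 : genericPoint X.toOver.left ⤳ g.left (genericPoint Y.toOver.left) :=
      genericPoint_specializes _
    have h3 := h2.map f.left.continuous
    rw [e2] at h3
    exact (h3.antisymm h1).eq
  have e4 : trd Y (f.left X.genericPt) = trd X X.genericPt := by
    refine le_antisymm (trd_le_of_hom f _) ?_
    have := trd_le_of_hom g (f.left X.genericPt)
    rwa [show g.left (f.left X.genericPt) = X.genericPt from e1 _] at this
  rw [e3] at e4
  rw [← pointDim_genericPt W X, ← pointDim_genericPt W Y]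
  exact (congrArg Cardinal.toNat e4).symm

lemma exists_pow_dim (X : SmProjVar k) (n : ℕ) :
    ∃ A : Pow X (Fin (n + 1)), A.var.dim = (n + 1) * X.dim := by
  induction n with
  | zero =>
    refine ⟨(Pow.single X).relabel (Equiv.ofUnique (Fin 1) Unit), ?_⟩
    change X.dim = _
    ring
  | succ n ih =>
    obtain ⟨A, hA⟩ := ih
    refine ⟨(A.prod (Pow.single X)).relabel
      (finSuccEquivLast.trans (Equiv.optionEquivSumPUnit (Fin (n + 1)))), ?_⟩
    change X.dim + A.var.dim = _
    rw [hA]
    ring

/-- Two powers are isomorphic. -/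
lemma pow_iso (A A' : Pow X T) :
    ∃ (f : A.var.toOver ⟶ A'.var.toOver) (g : A'.var.toOver ⟶ A.var.toOver),
      f ≫ g = 𝟙 _ ∧ g ≫ f = 𝟙 _ := by
  refine ⟨A.map A' id, A'.map A id, ?_, ?_⟩
  · rw [Pow.map_comp, Function.comp_id, Pow.map_id]
  · rw [Pow.map_comp, Function.comp_id, Pow.map_id]

/-- The dimension of a power. -/
theorem dim_pow {L : Type v} [Field L] [CharZero L] (W : WeilCohomology.{u, v, w} k L)
    [Finite T] [Nonempty T] (A : Pow X T) : A.var.dim = Nat.card T * X.dim := by
  have : Fintype T := Fintype.ofFinite T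
  obtain ⟨n, hn⟩ : ∃ n, Fintype.card T = n + 1 :=
    Nat.exists_eq_succ_of_ne_zero Fintype.card_ne_zero
  obtain ⟨A', hA'⟩ := exists_pow_dim X n
  obtain ⟨f, g, h, h'⟩ := pow_iso A (A'.relabel (Fintype.equivFinOfCardEq hn))
  rw [dim_eq_of_iso W f g h h', Nat.card_eq_fintype_card, hn]
  exact hA'

end Dim

section Gal

variable {F K : Type u} [Field F] [Field K] [Algebra F K] {M₀ : SmProjVar F} {r : ℕ} {I : Type}
  [Fintype I] {T : Type} {X : SmProjVar K} {π : X.toOver.left ⟶ M₀.toOver.left}

omit [Fintype I] in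
lemma fieldMap_congr {X Y : SmProjVar K} {g : SemiAut X} {h : SemiAut Y} (e : g.base = h.base)
    (x : K) : fieldMap g x = fieldMap h x := by
  unfold fieldMap
  rw [e]

omit [Fintype I] in
/-- The automorphisms `g^T` of `X^T`. -/
lemma aut_mem (a : I → K) (B : Pow M₀ T) (A : Pow X T)
    (w : π ≫ M₀.toOver.hom = X.toOver.hom ≫ specMap F K) {g : SemiAut X}
    (hg : g ∈ galGroup (F := F) a π) : A.aut g ∈ galGroup (F := F) a (powMap B A w) := by
  obtain ⟨h1, h2, h3⟩ := hg
  refine ⟨?_, fun c => ?_, fun l => ?_⟩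
  · refine hom_ext_F B _ _ ?_ fun t => ?_
    · rw [Category.assoc, powMap_hom, ← Category.assoc, SemiAut.sch_hom, Pow.aut_base,
        ← powMap_hom B A w, Category.assoc]
      have h4 : g.base ≫ specMap F K = specMap F K := by
        rw [← specMap_fieldMap g, specMap, ← Spec.map_comp, ← CommRingCat.ofHom_comp]
        congr 2
        ext c
        exact h2 c
      rw [h4, powMap_hom]
    · rw [Category.assoc, powMap_pr, ← Category.assoc, Pow.aut_pr, Category.assoc, h1]
  · rw [fieldMap_congr (A.aut_base g), h2]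
  · rw [fieldMap_congr (A.aut_base g), h3]

/-- All automorphisms of `X^T` over `M₀^T` are of the form `g^T`. -/
lemma exists_aut_eq {S : Sections M₀ r I} {a : I → K} (hX : IsZeroLocus S a X π) (B : Pow M₀ T)
    (A : Pow X T) {h : SemiAut A.var} (hh : h ∈ galGroup (F := F) a (powMap B A hX.w)) :
    ∃ g ∈ galGroup (F := F) a π, A.aut g = h := by
  obtain ⟨h1, h2, h3⟩ := hh
  obtain ⟨g, hg, hgf⟩ := exists_semiAut hX (fieldEquiv h) h2 h3
  refine ⟨g, hg, ?_⟩
  have hb : g.base = h.base := by
    rw [← specMap_fieldMap g, ← specMap_fieldMap h]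
    congr 2
    ext x
    exact hgf x
  refine A.semiAut_ext ((A.aut_base g).trans hb) fun t => ?_
  rw [Pow.aut_pr]
  refine hX.unique _ _ _ ?_ ?_
  · rw [Category.assoc, hg.1, Category.assoc, ← powMap_pr B A hX.w, ← Category.assoc, h1]
  · rw [Category.assoc, SemiAut.sch_hom, ← Category.assoc, Over.w, Category.assoc, Over.w,
      SemiAut.sch_hom, hb]

end Gal

end

end Pool.Agent.Helper47.PWB
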