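import Mathlib
import Pool.Agent.Helper47.PWB.Geo
import Pool.Agent.Helper47.One.Local1

/-!
# Tautological classes on powers
-/

universe u v w

open CategoryTheory AlgebraicGeometry Limits

namespace Pool.Agent.Helper47.PWB

open Pool.Agent.Helper10 Pool.Agent.Helper10.SmProjVar Pool.Agent.Helper47.Chow
open Pool.Agent.Helper47.Desc Pool.Agent.Helper47.Spread Pool.Agent.Helper47.Spread.C5
open Pool.Agent.Helper11.PW

noncomputable section

section Push

variable {K : Type u} [Field K] {L : Type v} [Field L] [CharZero L]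
  {W : WeilCohomology.{u, v, w} K L}

lemma residueDegree_eq_one {Z Z' : Scheme.{u}} (f : Z ⟶ Z') (x : Z)
    (h : Function.Surjective (f.residueFieldMap x).hom) : f.residueDegree x = 1 := by
  unfold Scheme.Hom.residueDegree
  let _ := (f.residueFieldMap x).hom.toAlgebra
  exact finrank_eq_one_iff_of_nonzero' 1 one_ne_zero |>.mpr fun b => by
    obtain ⟨c, hc⟩ := h b
    refine ⟨c, ?_⟩
    rw [Algebra.smul_def, mul_one]
    exact hc

lemma retract_apply {X Y : SmProjVar K} {δ : X.toOver ⟶ Y.toOver} {ρ : Y.toOver ⟶ X.toOver}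
    (h : δ ≫ ρ = 𝟙 _) (x : X.toOver.left) : ρ.left (δ.left x) = x := by
  rw [← Scheme.Hom.comp_apply, ← Over.comp_left, h]
  rfl

lemma pointDim_retract {X Y : SmProjVar K} {δ : X.toOver ⟶ Y.toOver} {ρ : Y.toOver ⟶ X.toOver}
    (h : δ ≫ ρ = 𝟙 _) (x : X.toOver.left) : Y.pointDim (δ.left x) = X.pointDim x := by
  have h1 : trd Y (δ.left x) = trd X x := by
    refine le_antisymm (trd_le_of_hom δ x) ?_
    have h2 := trd_le_of_hom ρ (δ.left x)
    rwa [retract_apply h] at h2
  exact congrArg Cardinal.toNat h1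

/-- The map on points. -/
def ptMap {X Y : SmProjVar K} (δ : X.toOver ⟶ Y.toOver) (x : X.Pt) : Y.Pt := δ.left x

lemma ptMap_injective {X Y : SmProjVar K} {δ : X.toOver ⟶ Y.toOver} {ρ : Y.toOver ⟶ X.toOver}
    (h : δ ≫ ρ = 𝟙 _) : Function.Injective (ptMap δ) :=
  Function.LeftInverse.injective (g := ptMap ρ) fun x => retract_apply h x

/-- The image of a cycle under a morphism with a retraction. -/
def mapCyc {X Y : SmProjVar K} (δ : X.toOver ⟶ Y.toOver) (D : QCycles X) : QCycles Y :=
  Finsupp.mapDomain (M := ℚ) (ptMap δ) D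

lemma mapCyc_coeff {X Y : SmProjVar K} {δ : X.toOver ⟶ Y.toOver} {ρ : Y.toOver ⟶ X.toOver}
    (h : δ ≫ ρ = 𝟙 _) (D : QCycles X) (x : X.toOver.left) :
    (mapCyc δ D).coeff (δ.left x) = D.coeff x :=
  Finsupp.mapDomain_apply (M := ℚ) (f := ptMap δ) (ptMap_injective h) D x

lemma mapCyc_coeff_ne {X Y : SmProjVar K} {δ : X.toOver ⟶ Y.toOver} (D : QCycles X)
    (y : Y.toOver.left) (hy : (mapCyc δ D).coeff y ≠ 0) : ∃ x, δ.left x = y := by
  classical
  by_contra hne
  push Not at hne
  refine hy (Finsupp.mapDomain_of_notMem_range (M := ℚ) (f := ptMap δ) D y ?_)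
  rintro ⟨x, hx⟩
  exact hne x hx

/-- Push-forward along a morphism with a retraction. -/
lemma push_cls (C : ChowTheory W) {X Y : SmProjVar K} {δ : X.toOver ⟶ Y.toOver}
    {ρ : Y.toOver ⟶ X.toOver} (h : δ ≫ ρ = 𝟙 _) (D : QCycles X) :
    C.ops.push δ (cls X D) = cls Y (mapCyc δ D) := by
  classical
  let p : CH X →ₗ[ℚ] CH Y :=
    { toFun := C.ops.push δ
      map_add' := C.linear.push_add δ
      map_smul' := C.linear.push_smul δ }
  let f1 : (X.Pt →₀ ℚ) →ₗ[ℚ] CH Y := p.comp (ratZero X).mkQ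
  let f2 : (X.Pt →₀ ℚ) →ₗ[ℚ] CH Y :=
    (ratZero Y).mkQ.comp (Finsupp.lmapDomain ℚ ℚ (ptMap δ))
  have h1 : f1 = f2 := by
    refine Finsupp.lhom_ext' fun x => LinearMap.ext_ring ?_
    have e1 : Finsupp.mapDomain (ptMap δ) (Finsupp.single x (1 : ℚ)) =
        Finsupp.single (ptMap δ x) 1 := Finsupp.mapDomain_single
    refine Eq.trans ?_ (congrArg (cls Y) e1).symm
    refine (C.pushForward.push_ptCls δ x).trans ?_
    have e2 : (δ.left.residueDegree x : ℚ) = 1 := by
      have := residueDegree_eq_one δ.left x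
        (residueFieldMap_surjective_of_retract _ ρ.left (congrArg CommaMorphism.left h) x)
      rw [this, Nat.cast_one]
    have e3 : X.pointDim x = Y.pointDim (δ.left x) := (pointDim_retract h x).symm
    rw [if_pos e3, e2, one_smul]
    rfl
  exact LinearMap.congr_fun h1 D

end Push

section Lift

variable {F K : Type u} [Field F] [Field K] [Algebra F K] {M₀ : SmProjVar F} {r : ℕ} {I : Type}
  [Fintype I] {T N : Type} {X : SmProjVar K} {π : X.toOver.left ⟶ M₀.toOver.left}

lemma powMap_map (B : Pow M₀ N) (A : Pow X N) (B₁ : Pow M₀ T) (A₁ : Pow X T) (f : N → T)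
    (w : π ≫ M₀.toOver.hom = X.toOver.hom ≫ specMap F K) :
    (A₁.map A f).left ≫ powMap B A w = powMap B₁ A₁ w ≫ (B₁.map B f).left := by
  refine hom_ext_F B _ _ ?_ fun t => ?_
  · rw [Category.assoc, powMap_hom, ← Category.assoc, Over.w, Category.assoc, Over.w, powMap_hom]
  · rw [Category.assoc, powMap_pr, ← Category.assoc, map_left_pr, Category.assoc, map_left_pr,
      powMap_pr]

/-- A point of `X^N` over the image of a point of `M₀^T` comes from `X^T`. -/
lemma exists_lift_point {S : Sections M₀ r I} {a : I → K} (hX : IsZeroLocus S a X π)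
    (B : Pow M₀ N) (A : Pow X N) (B₁ : Pow M₀ T) (A₁ : Pow X T) (f : N → T) (g : T → N)
    (hg : ∀ t, f (g t) = t) (y : A.var.toOver.left) (x' : B₁.var.toOver.left)
    (hy : powMap B A hX.w y = (B₁.map B f).left x') :
    ∃ y₁ : A₁.var.toOver.left, (A₁.map A f).left y₁ = y ∧ powMap B₁ A₁ hX.w y₁ = x' := by
  obtain ⟨p, hp, hp'⟩ := Scheme.Pullback.exists_preimage_pullback
    (f := powMap B A hX.w) (g := (B₁.map B f).left) y x' hy
  let P := pullback (powMap B A hX.w) (B₁.map B f).left
  let c : P ⟶ A.var.toOver.left := pullback.fst _ _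
  let b : P ⟶ B₁.var.toOver.left := pullback.snd _ _
  have hcb : c ≫ powMap B A hX.w = b ≫ (B₁.map B f).left := pullback.condition
  obtain ⟨l, hl, -⟩ := exists_factor A₁ A f g hg c (by
    intro s t hst
    have e1 : ∀ s, (c ≫ (A.pr s).left) ≫ π = b ≫ (B₁.pr (f s)).left := by
      intro s
      rw [Category.assoc, ← powMap_pr B A hX.w, ← Category.assoc, hcb, Category.assoc,
        map_left_pr]
    refine hX.unique _ _ _ ?_ ?_
    · rw [e1, e1, hst]
    · rw [Category.assoc, Category.assoc, Over.w, Over.w])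
  have hly : (A₁.map A f).left (l p) = y := by
    rw [← Scheme.Hom.comp_apply, hl]
    exact hp
  refine ⟨l p, hly, ?_⟩
  have h1 : (B₁.map B f).left (powMap B₁ A₁ hX.w (l p)) = (B₁.map B f).left x' := by
    rw [← Scheme.Hom.comp_apply, ← powMap_map, Scheme.Hom.comp_apply, hly, hy]
  have h2 : B₁.map B f ≫ B.map B₁ g = 𝟙 _ := by
    rw [Pow.map_comp, show f ∘ g = id from funext hg, Pow.map_id]
  have h3 := congrArg (fun z => (B.map B₁ g).left z) h1
  simp only at h3
  rwa [retract_apply h2, retract_apply h2] at h3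

end Lift

end

end Pool.Agent.Helper47.PWB
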